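import Mathlib

set_option autoImplicit false

namespace Pool.Agent.MP_1fed52_co

open Finset

/-- major index of a word `w 0, …, w (m-1)`: positions are counted from 1 -/
def maj {m : ℕ} (w : Fin m → ℕ) : ℕ :=
  ∑ i : Fin m, if h : (i : ℕ) + 1 < m then (if w ⟨i + 1, h⟩ < w i then (i : ℕ) + 1 else 0) else 0

/-- the order of `NE_{s,t}` on `x = (i-1)t+j`, `y = (i'-1)t+j'`: `i' ≤ i` and `j' ≤ j` -/
def neLE (t x y : ℕ) : Prop := (y - 1) / t ≤ (x - 1) / t ∧ (y - 1) % t ≤ (x - 1) % t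

/-- one-line form of a permutation, with values in `{1, …, n}` -/
def oneLine {n : ℕ} (π : Equiv.Perm (Fin n)) : Fin n → ℕ := fun a => (π a : ℕ) + 1

def IsLinExt (t : ℕ) {n : ℕ} (w : Fin n → ℕ) : Prop :=
  ∀ a b : Fin n, a ≠ b → neLE t (w a) (w b) → a < b

def Avoids123 {n : ℕ} (w : Fin n → ℕ) : Prop :=
  ¬ ∃ a b c : Fin n, a < b ∧ b < c ∧ w a < w b ∧ w b < w c

def IsCatalanWord (s : ℕ) {n : ℕ} (w : Fin n → ℕ) : Prop :=
  #{i | w i = 1} = s ∧ #{i | w i = 2} = s ∧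
    ∀ k : ℕ, #{i : Fin n | (i : ℕ) < k ∧ w i = 2} ≤ #{i : Fin n | (i : ℕ) < k ∧ w i = 1}

end Pool.Agent.MP_1fed52_co
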