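import Mathlib

set_option autoImplicit false

namespace Pool.Agent.MP_1fed52_co

open Finset

def ext {n : ℕ} (w : Fin n → Bool) : ℕ → Bool := fun i => if h : i < n then w ⟨i, h⟩ else false

def sumF (n : ℕ) (f : (ℕ → Bool) → ℝ) : ℝ := ∑ w : Fin n → Bool, f (ext w)

lemma ext_snoc {n : ℕ} (w : Fin n → Bool) (x : Bool) :
    ext (Fin.snoc (α := fun _ => Bool) w x) = Function.update (ext w) n x := by
  funext i
  by_cases h1 : i = n
  · subst h1
    simp only [ext, Nat.lt_succ_self, dif_pos, Function.update_self]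
    exact Fin.snoc_last (α := fun _ => Bool) x w
  · rw [Function.update_of_ne h1]
    unfold ext
    by_cases h2 : i < n
    · rw [dif_pos h2, dif_pos (by omega)]
      exact Fin.snoc_castSucc (α := fun _ => Bool) x w ⟨i, h2⟩
    · rw [dif_neg h2, dif_neg (by omega)]

lemma sumF_succ (n : ℕ) (f : (ℕ → Bool) → ℝ) :
    sumF (n + 1) f =
      sumF n (fun u => f (Function.update u n true) + f (Function.update u n false)) := by
  unfold sumF
  rw [← (Fin.snocEquiv (fun _ : Fin (n + 1) => Bool)).sum_comp, Fintype.sum_prod_type,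
    Fintype.sum_bool, ← sum_add_distrib]
  refine sum_congr rfl fun w _ => ?_
  have : ∀ x : Bool, (Fin.snocEquiv (fun _ : Fin (n + 1) => Bool)) (x, w) =
      Fin.snoc (α := fun _ => Bool) w x := fun x => rfl
  rw [this, this, ext_snoc, ext_snoc]

def ones (u : ℕ → Bool) (p : ℕ) : ℕ := ∑ i ∈ range p, if u i then 1 else 0

def twos (u : ℕ → Bool) (p : ℕ) : ℕ := ∑ i ∈ range p, if u i then 0 else 1

def ballot (u : ℕ → Bool) (n : ℕ) : Prop := ∀ k ≤ n, twos u k ≤ ones u k

def val (u : ℕ → Bool) (n : ℕ) : ℕ :=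
  ∑ i ∈ range (n - 1), if u i = false ∧ u (i + 1) = true then i + 1 else 0

def hp (u : ℕ → Bool) (n : ℕ) : ℕ :=
  ∑ i ∈ range (n - 1), if u i = true ∧ u (i + 1) = false ∧ twos u i < ones u i then i + 1 else 0

lemma ones_add_twos (u : ℕ → Bool) (p : ℕ) : ones u p + twos u p = p := by
  unfold ones twos
  rw [← sum_add_distrib]
  have : ∀ i, ((if u i then 1 else 0) + (if u i then 0 else 1) : ℕ) = 1 := by
    intro i; split_ifs <;> rfl
  simp [this]

lemma ones_succ (u : ℕ → Bool) (p : ℕ) : ones u (p + 1) = ones u p + if u p then 1 else 0 :=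
  sum_range_succ _ _

lemma twos_succ (u : ℕ → Bool) (p : ℕ) : twos u (p + 1) = twos u p + if u p then 0 else 1 :=
  sum_range_succ _ _

lemma ones_update (u : ℕ → Bool) (n p : ℕ) (x : Bool) (h : p ≤ n) :
    ones (Function.update u n x) p = ones u p :=
  sum_congr rfl fun i hi => by rw [Function.update_of_ne (by have := mem_range.1 hi; omega)]

lemma twos_update (u : ℕ → Bool) (n p : ℕ) (x : Bool) (h : p ≤ n) :
    twos (Function.update u n x) p = twos u p :=
  sum_congr rfl fun i hi => by rw [Function.update_of_ne (by have := mem_range.1 hi; omega)]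

lemma ballot_succ (u : ℕ → Bool) (n : ℕ) :
    ballot u (n + 1) ↔ ballot u n ∧ twos u (n + 1) ≤ ones u (n + 1) := by
  constructor
  · intro h
    exact ⟨fun k hk => h k (by omega), h _ le_rfl⟩
  · rintro ⟨h1, h2⟩ k hk
    rcases Nat.lt_or_eq_of_le hk with h | h
    · exact h1 k (by omega)
    · rw [h]; exact h2

lemma ballot_update (u : ℕ → Bool) (n p : ℕ) (x : Bool) (h : p ≤ n) :
    ballot (Function.update u n x) p ↔ ballot u p := by
  unfold ballot
  refine forall₂_congr fun k hk => ?_
  rw [ones_update _ _ _ _ (by omega), twos_update _ _ _ _ (by omega)]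

lemma val_update (u : ℕ → Bool) (n p : ℕ) (x : Bool) (h : p ≤ n) :
    val (Function.update u n x) p = val u p :=
  sum_congr rfl fun i hi => by
    have := mem_range.1 hi
    rw [Function.update_of_ne (by omega), Function.update_of_ne (by omega)]

lemma hp_update (u : ℕ → Bool) (n p : ℕ) (x : Bool) (h : p ≤ n) :
    hp (Function.update u n x) p = hp u p :=
  sum_congr rfl fun i hi => by
    have := mem_range.1 hi
    rw [Function.update_of_ne (by omega), Function.update_of_ne (by omega),
      ones_update _ _ _ _ (by omega), twos_update _ _ _ _ (by omega)]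

lemma val_succ (u : ℕ → Bool) (n : ℕ) :
    val u (n + 2) = val u (n + 1) + if u n = false ∧ u (n + 1) = true then n + 1 else 0 :=
  sum_range_succ _ _

lemma hp_succ (u : ℕ → Bool) (n : ℕ) :
    hp u (n + 2) = hp u (n + 1) +
      if u n = true ∧ u (n + 1) = false ∧ twos u n < ones u n then n + 1 else 0 :=
  sum_range_succ _ _

open Classical in
/-- generating function of a statistic over ballot words of length `n` with `a` ones -/
noncomputable def gf (q : ℝ) (st : (ℕ → Bool) → ℕ → ℕ) (n a : ℕ) : ℝ :=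
  sumF n fun u => if ballot u n ∧ ones u n = a then q ^ st u n else 0

lemma sumF_add (n : ℕ) (f g : (ℕ → Bool) → ℝ) :
    sumF n f + sumF n g = sumF n (fun u => f u + g u) := by
  unfold sumF; rw [sum_add_distrib]

lemma sumF_mul (n : ℕ) (c : ℝ) (f : (ℕ → Bool) → ℝ) :
    c * sumF n f = sumF n (fun u => c * f u) := by
  unfold sumF; rw [mul_sum]

open Classical in
lemma gf_succ (q : ℝ) (st : (ℕ → Bool) → ℕ → ℕ) (n a : ℕ) :
    gf q st (n + 1) a = sumF n fun u =>
      (if ballot u n ∧ ones u n + 1 = a then q ^ st (Function.update u n true) (n + 1) else 0) +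
      (if ballot u n ∧ ones u n = a ∧ twos u n < ones u n then
        q ^ st (Function.update u n false) (n + 1) else 0) := by
  unfold gf
  rw [sumF_succ]
  congr 1
  funext u
  simp only [ballot_succ, ones_succ, twos_succ, ballot_update _ _ _ _ le_rfl,
    ones_update _ _ _ _ le_rfl, twos_update _ _ _ _ le_rfl, Function.update_self]
  congr 1
  · refine if_congr ?_ rfl rfl
    simp only [if_true, add_zero]
    constructor
    · rintro ⟨⟨h1, _⟩, h2⟩; exact ⟨h1, h2⟩
    · rintro ⟨h1, h2⟩; exact ⟨⟨h1, by have := h1 n le_rfl; omega⟩, h2⟩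
  · refine if_congr ?_ rfl rfl
    simp only [Bool.false_eq_true, if_false, add_zero]
    constructor
    · rintro ⟨⟨h1, h3⟩, h2⟩; exact ⟨h1, h2, by omega⟩
    · rintro ⟨h1, h2, h3⟩; exact ⟨⟨h1, by omega⟩, h2⟩

lemma val_false (u : ℕ → Bool) (m : ℕ) : val (Function.update u m false) (m + 1) = val u m := by
  cases m with
  | zero => rfl
  | succ m => rw [val_succ, val_update _ _ _ _ le_rfl]; simp

lemma hp_true (u : ℕ → Bool) (m : ℕ) : hp (Function.update u m true) (m + 1) = hp u m := by
  cases m with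
  | zero => rfl
  | succ m => rw [hp_succ, hp_update _ _ _ _ le_rfl]; simp

lemma ones_true (u : ℕ → Bool) (m : ℕ) :
    ones (Function.update u m true) (m + 1) = ones u m + 1 := by
  rw [ones_succ, ones_update _ _ _ _ le_rfl]; simp

lemma ones_false (u : ℕ → Bool) (m : ℕ) :
    ones (Function.update u m false) (m + 1) = ones u m := by
  rw [ones_succ, ones_update _ _ _ _ le_rfl]; simp

lemma twos_true (u : ℕ → Bool) (m : ℕ) :
    twos (Function.update u m true) (m + 1) = twos u m := by
  rw [twos_succ, twos_update _ _ _ _ le_rfl]; simp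

lemma twos_false (u : ℕ → Bool) (m : ℕ) :
    twos (Function.update u m false) (m + 1) = twos u m + 1 := by
  rw [twos_succ, twos_update _ _ _ _ le_rfl]; simp

lemma ballot_true (u : ℕ → Bool) (m : ℕ) :
    ballot (Function.update u m true) (m + 1) ↔ ballot u m := by
  rw [ballot_succ, ballot_update _ _ _ _ le_rfl, ones_true, twos_true]
  exact ⟨fun h => h.1, fun h => ⟨h, by have := h m le_rfl; omega⟩⟩

lemma ballot_false (u : ℕ → Bool) (m : ℕ) :
    ballot (Function.update u m false) (m + 1) ↔ ballot u m ∧ twos u m < ones u m := by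
  rw [ballot_succ, ballot_update _ _ _ _ le_rfl, ones_false, twos_false]
  rfl

open Classical in
lemma gf_rec_val (q : ℝ) (m a : ℕ) :
    gf q val (m + 2) (a + 1) = gf q val (m + 1) a +
      (if m + 1 < 2 * (a + 1) then 1 else 0) * gf q val (m + 1) (a + 1) +
      (if m < 2 * a then q ^ (m + 1) - 1 else 0) * gf q val m a := by
  rw [gf_succ, sumF_succ, gf_succ, gf_succ]
  unfold gf
  rw [sumF_mul, sumF_mul, sumF_add, sumF_add]
  congr 1
  funext u
  have h1 := ones_add_twos u m
  simp only [val_succ, val_update _ _ _ _ le_rfl,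
    Function.update_self, Function.update_of_ne (Nat.succ_ne_self m).symm, val_false,
    ones_true, ones_false, twos_true, twos_false, ballot_true, ballot_false]
  generalize val (Function.update u m true) (m + 1) = T
  generalize val u m = V
  by_cases hb : ballot u m
  · have h2 := hb m le_rfl
    simp only [hb, true_and, if_true, Bool.false_eq_true, if_false, add_zero, and_false,
      Bool.true_eq_false, false_and, and_self, pow_add]
    generalize ones u m = o at *
    generalize twos u m = t at *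
    split_ifs <;> first | omega | ring1
  · simp only [hb, false_and, if_false, add_zero, mul_zero]

open Classical in
lemma gf_rec_hp (q : ℝ) (m a : ℕ) :
    gf q hp (m + 2) (a + 1) = gf q hp (m + 1) a +
      (if m + 1 < 2 * (a + 1) then 1 else 0) * gf q hp (m + 1) (a + 1) +
      (if m < 2 * a then q ^ (m + 1) - 1 else 0) * gf q hp m a := by
  rw [gf_succ, sumF_succ, gf_succ, gf_succ]
  unfold gf
  rw [sumF_mul, sumF_mul, sumF_add, sumF_add]
  congr 1
  funext u
  have h1 := ones_add_twos u m
  simp only [hp_succ, hp_update _ _ _ _ le_rfl,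
    ones_update _ _ _ _ (Nat.le_succ m), twos_update _ _ _ _ (Nat.le_succ m),
    ones_update _ _ _ _ (le_refl m), twos_update _ _ _ _ (le_refl m),
    Function.update_self, Function.update_of_ne (Nat.succ_ne_self m).symm, hp_true,
    ones_true, ones_false, twos_true, twos_false, ballot_true, ballot_false]
  generalize hp (Function.update u m false) (m + 1) = T
  generalize hp u m = V
  by_cases hb : ballot u m
  · have h2 := hb m le_rfl
    simp only [hb, true_and, Bool.false_eq_true, if_false, add_zero,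
      Bool.true_eq_false, false_and, pow_add]
    generalize ones u m = o at *
    generalize twos u m = t at *
    split_ifs <;> first | omega | ring1
  · simp only [hb, false_and, if_false, add_zero, mul_zero]

/-- no ballot word of positive length has zero ones; none has more ones than letters -/
lemma gf_zero (q : ℝ) (st : (ℕ → Bool) → ℕ → ℕ) (n a : ℕ) (h : n < a ∨ 2 * a < n) :
    gf q st n a = 0 := by
  unfold gf sumF
  refine sum_eq_zero fun w _ => if_neg ?_
  rintro ⟨h1, h2⟩
  have := h1 n le_rfl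
  have := ones_add_twos (ext w) n
  omega

lemma gf_00 (q : ℝ) (st : (ℕ → Bool) → ℕ → ℕ) (h0 : ∀ u, st u 0 = 0) : gf q st 0 0 = 1 := by
  unfold gf sumF
  simp [ballot, ones, twos, h0]

lemma gf_11 (q : ℝ) (st : (ℕ → Bool) → ℕ → ℕ) (h1 : ∀ u, st u 1 = 0) : gf q st 1 1 = 1 := by
  rw [gf_succ]
  unfold sumF
  simp [ballot, ones, twos, h1]

noncomputable def qf (q : ℝ) (n : ℕ) : ℝ := ∏ i ∈ range n, (1 - q ^ (i + 1))

noncomputable def Phi (q : ℝ) (a b : ℕ) : ℝ :=
  qf q (a + b) * (1 - q - q ^ (a + 1) + q ^ (b + 1)) / (qf q (a + 1) * qf q b)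

lemma qf_succ (q : ℝ) (n : ℕ) : qf q (n + 1) = qf q n * (1 - q ^ (n + 1)) := prod_range_succ _ _

lemma qf_ne (q : ℝ) (hq : ∀ k, 1 - q ^ (k + 1) ≠ 0) (n : ℕ) : qf q n ≠ 0 :=
  prod_ne_zero_iff.2 fun i _ => hq i

lemma Phi_zero (q : ℝ) (hq : ∀ k, 1 - q ^ (k + 1) ≠ 0) (a : ℕ) : Phi q a 0 = 1 := by
  unfold Phi
  have h1 := qf_ne q hq a
  have h2 := hq a
  rw [qf_succ]
  simp only [add_zero, zero_add, pow_one]
  have : qf q 0 = 1 := rfl
  rw [this]
  field_simp
  ring

lemma Phi_rec (q : ℝ) (hq : ∀ k, 1 - q ^ (k + 1) ≠ 0) (a b : ℕ) :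
    Phi q (a + 1) (b + 1) = Phi q a (b + 1) + Phi q (a + 1) b + (q ^ (a + b + 1) - 1) * Phi q a b := by
  unfold Phi
  have e1 : a + 1 + (b + 1) = a + b + 1 + 1 := by ring
  have e2 : a + (b + 1) = a + b + 1 := by ring
  have e3 : a + 1 + b = a + b + 1 := by ring
  rw [e1, e2, e3, qf_succ q (a + b + 1), qf_succ q (a + b), qf_succ q (a + 1), qf_succ q b]
  have h1 := qf_ne q hq (a + 1)
  have h2 := qf_ne q hq b
  have h3 := hq (a + 1)
  have h4 := hq b
  field_simp
  ring

lemma Phi_diag (q : ℝ) (hq : ∀ k, 1 - q ^ (k + 1) ≠ 0) (a : ℕ) :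
    Phi q (a + 1) (a + 1) = Phi q (a + 1) a := by
  unfold Phi
  have e1 : a + 1 + (a + 1) = a + 1 + a + 1 := by ring
  rw [e1, qf_succ q (a + 1 + a), qf_succ q a]
  have h1 := qf_ne q hq (a + 1 + 1)
  have h2 := qf_ne q hq a
  have h4 := hq a
  field_simp
  ring

lemma gf_closed (q : ℝ) (hq : ∀ k, 1 - q ^ (k + 1) ≠ 0) (st : (ℕ → Bool) → ℕ → ℕ)
    (h0 : ∀ u, st u 0 = 0) (h1 : ∀ u, st u 1 = 0)
    (hrec : ∀ m a, gf q st (m + 2) (a + 1) = gf q st (m + 1) a +
      (if m + 1 < 2 * (a + 1) then 1 else 0) * gf q st (m + 1) (a + 1) +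
      (if m < 2 * a then q ^ (m + 1) - 1 else 0) * gf q st m a) (n : ℕ) :
    ∀ a b, a + b = n → b ≤ a → gf q st n a = Phi q a b := by
  induction n using Nat.strong_induction_on with
  | _ n ih =>
    intro a b hab hba
    match n, ih, hab with
    | 0, _, hab =>
      obtain rfl : a = 0 := by omega
      obtain rfl : b = 0 := by omega
      rw [gf_00 q st h0, Phi_zero q hq]
    | 1, _, hab =>
      obtain rfl : a = 1 := by omega
      obtain rfl : b = 0 := by omega
      rw [gf_11 q st h1, Phi_zero q hq]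
    | m + 2, ih, hab =>
      obtain ⟨a, rfl⟩ : ∃ a', a = a' + 1 := ⟨a - 1, by omega⟩
      rw [hrec]
      cases b with
      | zero =>
        rw [ih (m + 1) (by omega) a 0 (by omega) (by omega), gf_zero q st (m + 1) (a + 1) (by omega),
          gf_zero q st m a (by omega), Phi_zero q hq, Phi_zero q hq]
        ring
      | succ b =>
        obtain rfl : m = a + b := by omega
        rw [ih (a + b + 1) (by omega) (a + 1) b (by omega) (by omega), if_pos (by omega)]
        rcases Nat.lt_or_eq_of_le (show b ≤ a by omega) with h | h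
        · rw [ih (a + b + 1) (by omega) a (b + 1) (by omega) (by omega),
            ih (a + b) (by omega) a b rfl (by omega), if_pos (by omega), Phi_rec q hq]
          ring
        · subst h
          rw [gf_zero q st (b + b + 1) b (by omega), if_neg (by omega), Phi_diag q hq]
          ring

lemma qf_inv (q : ℝ) (hq : q ≠ 0) (n : ℕ) :
    qf q⁻¹ n * q ^ (∑ i ∈ range n, (i + 1)) = (-1) ^ n * qf q n := by
  induction n with
  | zero => simp [qf]
  | succ n ih =>
    rw [qf_succ, qf_succ, sum_range_succ, pow_add]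
    have : (1 - q⁻¹ ^ (n + 1)) * q ^ (n + 1) = -(1 - q ^ (n + 1)) := by
      rw [inv_pow]; field_simp; ring
    calc _ = (qf q⁻¹ n * q ^ (∑ i ∈ range n, (i + 1))) * ((1 - q⁻¹ ^ (n + 1)) * q ^ (n + 1)) := by
          ring
      _ = _ := by rw [ih, this]; ring

lemma tri_sum (n : ℕ) : 2 * ∑ i ∈ range n, (i + 1) = n * (n + 1) := by
  induction n with
  | zero => rfl
  | succ n ih => rw [sum_range_succ, mul_add, ih]; ring

lemma Phi_palin (q : ℝ) (hq1 : 1 < q) (s : ℕ) :
    q ^ (s * s) * Phi q⁻¹ s s = q ^ s * Phi q s s := by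
  have hq0 : q ≠ 0 := by linarith
  have hq : ∀ k, 1 - q ^ (k + 1) ≠ 0 := fun k => by
    have := one_lt_pow₀ hq1 (Nat.add_one_ne_zero k); linarith
  have e1 := qf_inv q hq0 (s + s)
  have e2 := qf_inv q hq0 (s + 1)
  have e3 := qf_inv q hq0 s
  have t1 := tri_sum (s + s)
  have t2 := tri_sum (s + 1)
  have t3 := tri_sum s
  set A := ∑ i ∈ range (s + s), (i + 1)
  set B := ∑ i ∈ range (s + 1), (i + 1)
  set C := ∑ i ∈ range s, (i + 1)
  have hABC : s * s + B + C = A + s + 1 := by nlinarith
  have f1 : qf q⁻¹ (s + s) = (-1) ^ (s + s) * qf q (s + s) / q ^ A := by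
    rw [← e1]; field_simp
  have f2 : qf q⁻¹ (s + 1) = (-1) ^ (s + 1) * qf q (s + 1) / q ^ B := by
    rw [← e2]; field_simp
  have f3 : qf q⁻¹ s = (-1) ^ s * qf q s / q ^ C := by
    rw [← e3]; field_simp
  unfold Phi
  rw [f1, f2, f3]
  have h1 := qf_ne q hq (s + 1)
  have h2 := qf_ne q hq s
  have h3 : q ^ (s * s) * q ^ B * q ^ C = q ^ A * q ^ s * q := by
    rw [← pow_add, ← pow_add, hABC]; ring
  have h4 : ((-1 : ℝ)) ^ s ≠ 0 := by positivity
  have h5 : (1 - q⁻¹ - q⁻¹ ^ (s + 1) + q⁻¹ ^ (s + 1)) = -(1 - q) / q := by field_simp; ring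
  have h6 : (1 - q - q ^ (s + 1) + q ^ (s + 1)) = 1 - q := by ring
  rw [h5, h6, pow_add, pow_succ (-1 : ℝ) s]
  field_simp
  linear_combination (1 - q) * qf q (s + s) * h3

end Pool.Agent.MP_1fed52_co
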