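import Mathlib
import Pool.Agent.MP_1fed52_co.Defs
import Pool.Agent.MP_1fed52_co.Rec

set_option autoImplicit false

namespace Pool.Agent.MP_1fed52_co

open Finset

lemma maj_eq {n : ℕ} (w : Fin n → ℕ) (g : ℕ → ℕ)
    (hg : ∀ (i : ℕ) (h : i + 1 < n),
      g i = if w ⟨i + 1, h⟩ < w ⟨i, by omega⟩ then i + 1 else 0) :
    maj w = ∑ i ∈ range (n - 1), g i := by
  unfold maj
  have h1 : ∀ i : Fin n, (if h : (i : ℕ) + 1 < n then
      (if w ⟨i + 1, h⟩ < w i then (i : ℕ) + 1 else 0) else 0) =
      (fun j : ℕ => if j + 1 < n then g j else 0) i := by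
    intro i
    by_cases h : (i : ℕ) + 1 < n
    · simp only [dif_pos h, if_pos h, hg i h]
    · simp only [dif_neg h, if_neg h]
  rw [sum_congr rfl fun i _ => h1 i,
    Fin.sum_univ_eq_sum_range (fun j : ℕ => if j + 1 < n then g j else 0) n, ← sum_filter]
  congr 1
  ext j
  simp only [mem_filter, mem_range]
  omega

lemma ext_apply {n : ℕ} (b : Fin n → Bool) (i : ℕ) (h : i < n) : ext b i = b ⟨i, h⟩ := dif_pos h

lemma ones_ext {n : ℕ} (b : Fin n → Bool) (k : ℕ) (hk : k ≤ n) :
    ones (ext b) k = #{i : Fin n | (i : ℕ) < k ∧ b i = true} := by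
  unfold ones
  rw [← card_filter]
  symm
  refine card_bij (fun i _ => (i : ℕ)) ?_ ?_ ?_
  · intro i hi
    simp only [mem_filter, mem_univ, true_and] at hi
    simp only [mem_filter, mem_range]
    exact ⟨hi.1, by rw [ext_apply b i i.2]; exact hi.2⟩
  · intro i _ j _ h; exact Fin.ext h
  · intro j hj
    simp only [mem_filter, mem_range] at hj
    refine ⟨⟨j, by omega⟩, ?_, rfl⟩
    simp only [mem_filter, mem_univ, true_and]
    exact ⟨hj.1, by rw [← ext_apply b j (by omega)]; exact hj.2⟩

lemma twos_ext {n : ℕ} (b : Fin n → Bool) (k : ℕ) (hk : k ≤ n) :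
    twos (ext b) k = #{i : Fin n | (i : ℕ) < k ∧ b i = false} := by
  have h1 := ones_add_twos (ext b) k
  rw [ones_ext b k hk] at h1
  have h2 : #{i : Fin n | (i : ℕ) < k} = k := by
    rw [Fin.card_filter_val_lt]; omega
  have h3 := card_filter_add_card_filter_not (s := univ.filter fun i : Fin n => (i : ℕ) < k)
    (fun i => b i = true)
  rw [filter_filter, filter_filter, h2] at h3
  simp only [Bool.not_eq_true] at h3
  omega

lemma ones_mono (u : ℕ → Bool) {p p' : ℕ} (h : p ≤ p') : ones u p ≤ ones u p' :=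
  sum_le_sum_of_subset (range_mono h)

lemma twos_mono (u : ℕ → Bool) {p p' : ℕ} (h : p ≤ p') : twos u p ≤ twos u p' :=
  sum_le_sum_of_subset (range_mono h)

lemma ones_lt (u : ℕ → Bool) {p p' : ℕ} (h : p < p') (hu : u p = true) : ones u p < ones u p' := by
  have h1 := ones_mono u (show p + 1 ≤ p' from h)
  rw [ones_succ, hu] at h1
  simpa using h1

lemma twos_lt (u : ℕ → Bool) {p p' : ℕ} (h : p < p') (hu : u p = false) : twos u p < twos u p' := by
  have h1 := twos_mono u (show p + 1 ≤ p' from h)
  rw [twos_succ, hu] at h1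
  simpa using h1

open Classical in
lemma catalan_sum (q : ℝ) (s : ℕ) :
    ∑ w ∈ (Fintype.piFinset fun _ : Fin (2 * s) => ({1, 2} : Finset ℕ)) with IsCatalanWord s w,
      q ^ maj w = gf q val (2 * s) s := by
  unfold gf sumF
  rw [← sum_filter]
  symm
  have hk1 : ∀ (b : Fin (2 * s) → Bool) (k : ℕ),
      #{i : Fin (2 * s) | (i : ℕ) < k ∧ (if b i then 1 else 2) = 1} =
        ones (ext b) (min k (2 * s)) := by
    intro b k
    rw [ones_ext b _ (min_le_right _ _)]
    congr 1; ext i
    have := i.2
    cases h : b i <;> simp [h]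
  have hk2 : ∀ (b : Fin (2 * s) → Bool) (k : ℕ),
      #{i : Fin (2 * s) | (i : ℕ) < k ∧ (if b i then 1 else 2) = 2} =
        twos (ext b) (min k (2 * s)) := by
    intro b k
    rw [twos_ext b _ (min_le_right _ _)]
    congr 1; ext i
    have := i.2
    cases h : b i <;> simp [h]
  have hcat : ∀ b : Fin (2 * s) → Bool, IsCatalanWord s (fun i => if b i then 1 else 2) ↔
      ballot (ext b) (2 * s) ∧ ones (ext b) (2 * s) = s := by
    intro b
    have e1 := hk1 b (2 * s)
    have e2 := hk2 b (2 * s)
    simp only [Fin.is_lt, true_and, min_self] at e1 e2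
    have e3 := ones_add_twos (ext b) (2 * s)
    unfold IsCatalanWord
    simp only [hk1, hk2, e1, e2]
    constructor
    · rintro ⟨h1, _, h3⟩
      refine ⟨fun k hk => ?_, h1⟩
      have := h3 k
      rwa [min_eq_left hk] at this
    · rintro ⟨h1, h2⟩
      exact ⟨h2, by omega, fun k => h1 _ (min_le_right _ _)⟩
  refine sum_bij (fun b _ => fun i => if b i then 1 else 2) ?_ ?_ ?_ ?_
  · intro b hb
    simp only [mem_filter, mem_univ, true_and] at hb
    simp only [mem_filter, Fintype.mem_piFinset, hcat]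
    refine ⟨fun i => ?_, hb⟩
    cases b i <;> simp
  · intro b _ b' _ h
    funext i
    have := congrFun h i
    cases h1 : b i <;> cases h2 : b' i <;> simp_all
  · intro w hw
    simp only [mem_filter, Fintype.mem_piFinset, mem_insert, mem_singleton] at hw
    have e : (fun i => if (decide (w i = 1)) = true then 1 else 2) = w := by
      funext i
      rcases hw.1 i with h | h <;> simp [h]
    refine ⟨fun i => decide (w i = 1), ?_, e⟩
    simp only [mem_filter, mem_univ, true_and, ← hcat, e]
    exact hw.2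
  · intro b _
    congr 1
    symm
    refine maj_eq _ _ fun i h => ?_
    rw [ext_apply b i (by omega), ext_apply b (i + 1) h]
    cases b ⟨i, by omega⟩ <;> cases b ⟨i + 1, h⟩ <;> simp

def par {n : ℕ} (π : Equiv.Perm (Fin n)) : Fin n → Bool := fun p => decide ((π p : ℕ) % 2 = 1)

lemma count_above (n x : ℕ) (hx : x < n) :
    #{v : Fin n | x < (v : ℕ) ∧ (v : ℕ) % 2 = x % 2} = (n - 1 - x) / 2 := by
  rw [← card_range ((n - 1 - x) / 2)]
  refine card_bij (fun v _ => ((v : ℕ) - x) / 2 - 1) ?_ ?_ ?_
  · intro v hv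
    simp only [mem_filter, mem_univ, true_and] at hv
    have := v.2
    rw [mem_range]; omega
  · intro v hv v' hv' h
    simp only [mem_filter, mem_univ, true_and] at hv hv'
    apply Fin.ext; omega
  · intro j hj
    rw [mem_range] at hj
    refine ⟨⟨x + 2 * (j + 1), by omega⟩, ?_, ?_⟩
    · simp only [mem_filter, mem_univ, true_and]; omega
    · simp only; omega

lemma linExt_iff {n : ℕ} (π : Equiv.Perm (Fin n)) :
    IsLinExt 2 (oneLine π) ↔ ∀ a b : Fin n, a ≠ b →
      (π b : ℕ) / 2 ≤ (π a : ℕ) / 2 → (π b : ℕ) % 2 ≤ (π a : ℕ) % 2 → a < b := by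
  unfold IsLinExt neLE oneLine
  simp only [Nat.add_sub_cancel, and_imp]

lemma count_before {n : ℕ} (π : Equiv.Perm (Fin n)) (h : IsLinExt 2 (oneLine π)) (p : Fin n) :
    #{i : Fin n | (i : ℕ) < p ∧ (π i : ℕ) % 2 = (π p : ℕ) % 2} = (n - 1 - π p) / 2 := by
  rw [linExt_iff] at h
  rw [← count_above n (π p) (π p).2]
  refine card_bij (fun i _ => π i) ?_ ?_ ?_
  · intro i hi
    simp only [mem_filter, mem_univ, true_and] at hi ⊢
    refine ⟨?_, hi.2⟩
    by_contra hc
    have hne : p ≠ i := by rintro rfl; omega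
    have := h p i hne (by omega) (by omega)
    omega
  · intro i _ j _ hij; exact π.injective hij
  · intro v hv
    simp only [mem_filter, mem_univ, true_and] at hv
    refine ⟨π.symm v, ?_, by simp⟩
    simp only [mem_filter, mem_univ, true_and, Equiv.apply_symm_apply]
    refine ⟨?_, hv.2⟩
    have hne : π.symm v ≠ p := by
      rintro rfl
      simp at hv
    exact h (π.symm v) p hne (by simp only [Equiv.apply_symm_apply]; omega)
      (by simp only [Equiv.apply_symm_apply]; omega)

lemma val_of_true {s : ℕ} (π : Equiv.Perm (Fin (2 * s))) (h : IsLinExt 2 (oneLine π))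
    (p : Fin (2 * s)) (hp : (π p : ℕ) % 2 = 1) :
    (π p : ℕ) + 2 * ones (ext (par π)) p + 1 = 2 * s := by
  have h1 := count_before π h p
  rw [ones_ext _ _ p.2.le]
  simp only [par, decide_eq_true_eq]
  rw [hp] at h1
  rw [h1]
  have := (π p).2
  omega

lemma val_of_false {s : ℕ} (π : Equiv.Perm (Fin (2 * s))) (h : IsLinExt 2 (oneLine π))
    (p : Fin (2 * s)) (hp : (π p : ℕ) % 2 = 0) :
    (π p : ℕ) + 2 * twos (ext (par π)) p + 2 = 2 * s := by
  have h1 := count_before π h p
  rw [twos_ext _ _ p.2.le]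
  simp only [par, decide_eq_false_iff_not, Nat.mod_two_ne_one]
  rw [hp] at h1
  rw [h1]
  have := (π p).2
  omega

lemma ext_par {n : ℕ} (π : Equiv.Perm (Fin n)) (p : Fin n) :
    ext (par π) p = decide ((π p : ℕ) % 2 = 1) := ext_apply _ _ p.2

lemma ballot_par {s : ℕ} (π : Equiv.Perm (Fin (2 * s))) (h : IsLinExt 2 (oneLine π)) :
    ballot (ext (par π)) (2 * s) := by
  intro k
  induction k with
  | zero => intro _; exact le_rfl
  | succ k ih =>
    intro hk
    have ih' := ih (by omega)
    rw [ones_succ, twos_succ]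
    have e := ext_par π ⟨k, by omega⟩
    simp only at e
    rcases Nat.mod_two_eq_zero_or_one (π ⟨k, by omega⟩ : ℕ) with h0 | h0
    · have h1 := val_of_false π h ⟨k, by omega⟩ h0
      simp only at h1
      set p' := π.symm ⟨(π ⟨k, by omega⟩ : ℕ) + 1, by omega⟩ with hp'
      have h2 : (π p' : ℕ) = (π ⟨k, by omega⟩ : ℕ) + 1 := by simp [hp']
      have h3 := val_of_true π h p' (by omega)
      have h4 : p' < ⟨k, by omega⟩ := by
        refine (linExt_iff π).1 h _ _ ?_ (by omega) (by omega)
        intro hc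
        rw [hc] at h2
        omega
      have h5 := ones_lt (ext (par π)) (show (p' : ℕ) < k from h4)
        (by rw [ext_par]; simp only [decide_eq_true_eq]; omega)
      split_ifs <;> omega
    · rw [e]; simp only [h0, decide_true, if_true]; omega

lemma ones_par {s : ℕ} (π : Equiv.Perm (Fin (2 * s))) : ones (ext (par π)) (2 * s) = s := by
  rw [ones_ext _ _ le_rfl]
  conv_rhs => rw [← card_range s]
  refine card_bij (fun i _ => (π i : ℕ) / 2) ?_ ?_ ?_
  · intro i _
    have := (π i).2
    rw [mem_range]; omega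
  · intro i hi j hj hij
    simp only [mem_filter, mem_univ, true_and, par, decide_eq_true_eq] at hi hj
    apply π.injective
    apply Fin.ext
    omega
  · intro j hj
    rw [mem_range] at hj
    refine ⟨π.symm ⟨2 * j + 1, by omega⟩, ?_, ?_⟩
    · simp only [mem_filter, mem_univ, true_and, par, decide_eq_true_eq, Equiv.apply_symm_apply,
        Fin.is_lt]
      omega
    · simp only [Equiv.apply_symm_apply]; omega

lemma avoids_of_linExt {n : ℕ} (π : Equiv.Perm (Fin n)) (h : IsLinExt 2 (oneLine π)) :
    Avoids123 (oneLine π) := by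
  rw [linExt_iff] at h
  rintro ⟨a, b, c, hab, hbc, h1, h2⟩
  unfold oneLine at h1 h2
  have key : ∀ x y : Fin n, x < y → (π x : ℕ) < π y → (π x : ℕ) % 2 ≠ (π y : ℕ) % 2 := by
    intro x y hxy hv he
    have := h y x hxy.ne' (by omega) (by omega)
    exact absurd hxy (not_lt.2 this.le)
  have k1 := key a b hab (by omega)
  have k2 := key b c hbc (by omega)
  have k3 := key a c (hab.trans hbc) (by omega)
  omega

lemma maj_add_hp {s : ℕ} (π : Equiv.Perm (Fin (2 * s))) (h : IsLinExt 2 (oneLine π)) :
    maj (oneLine π) + hp (ext (par π)) (2 * s) = ∑ i ∈ range (2 * s - 1), (i + 1) := by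
  rw [maj_eq (oneLine π) (fun i => if ext (par π) i = true ∧ ext (par π) (i + 1) = false ∧
    twos (ext (par π)) i < ones (ext (par π)) i then 0 else i + 1)]
  · unfold hp
    rw [← sum_add_distrib]
    refine sum_congr rfl fun i _ => ?_
    split_ifs <;> simp
  · intro i hi
    have e1 := ext_par π ⟨i, by omega⟩
    have e2 := ext_par π ⟨i + 1, hi⟩
    have b1 := ballot_par π h (i + 1) (by omega)
    have o1 := ones_succ (ext (par π)) i
    have t1 := twos_succ (ext (par π)) i
    simp only at e1 e2
    unfold oneLine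
    rcases Nat.mod_two_eq_zero_or_one (π ⟨i, by omega⟩ : ℕ) with h0 | h0 <;>
    rcases Nat.mod_two_eq_zero_or_one (π ⟨i + 1, hi⟩ : ℕ) with h1 | h1
    · have v0 := val_of_false π h _ h0
      have v1 := val_of_false π h _ h1
      simp only [h0, h1, zero_ne_one, decide_false] at e1 e2
      simp only [e1, e2, Bool.false_eq_true, if_false, false_and] at *
      rw [if_pos (by omega)]
    · have v0 := val_of_false π h _ h0
      have v1 := val_of_true π h _ h1
      simp only [h0, h1, zero_ne_one, decide_false, decide_true] at e1 e2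
      simp only [e1, e2, Bool.false_eq_true, if_false, false_and] at *
      rw [if_pos (by omega)]
    · have v0 := val_of_true π h _ h0
      have v1 := val_of_false π h _ h1
      simp only [h0, h1, zero_ne_one, decide_false, decide_true] at e1 e2
      simp only [e1, e2, if_true, true_and] at *
      split_ifs <;> omega
    · have v0 := val_of_true π h _ h0
      have v1 := val_of_true π h _ h1
      simp only [h0, h1, decide_true] at e1 e2
      simp only [e1, e2, if_true, true_and, Bool.true_eq_false, false_and, if_false] at *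
      rw [if_pos (by omega)]

lemma exists_perm {s : ℕ} (b : Fin (2 * s) → Bool) (hb : ballot (ext b) (2 * s))
    (ho : ones (ext b) (2 * s) = s) :
    ∃ π : Equiv.Perm (Fin (2 * s)), IsLinExt 2 (oneLine π) ∧ par π = b := by
  have ht : twos (ext b) (2 * s) = s := by have := ones_add_twos (ext b) (2 * s); omega
  have hE : ∀ p : Fin (2 * s), ext b p = b p := fun p => ext_apply b p p.2
  have ho' : ∀ p : Fin (2 * s), b p = true → ones (ext b) p < s := fun p hp => by
    have := ones_lt (ext b) p.2 (by rw [hE, hp]); omega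
  have ht' : ∀ p : Fin (2 * s), b p = false → twos (ext b) p < s := fun p hp => by
    have := twos_lt (ext b) p.2 (by rw [hE, hp]); omega
  let f : Fin (2 * s) → Fin (2 * s) := fun p =>
    ⟨if b p then 2 * s - 1 - 2 * ones (ext b) p else 2 * s - 2 - 2 * twos (ext b) p, by
      have := p.2
      split_ifs <;> omega⟩
  have key : ∀ x y : Fin (2 * s), x ≠ y →
      (f y : ℕ) / 2 ≤ (f x : ℕ) / 2 → (f y : ℕ) % 2 ≤ (f x : ℕ) % 2 → x < y := by
    intro x y hne h1 h2
    by_contra hc
    have hyx : (y : ℕ) < x := by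
      have : x ≠ y := hne
      omega
    simp only [f] at h1 h2
    cases hx : b x <;> cases hy : b y <;> simp only [hx, hy, Bool.false_eq_true, if_false,
      if_true] at h1 h2
    · have := twos_lt (ext b) hyx (by rw [hE, hy])
      have := ht' x hx
      omega
    · have := ht' x hx
      have := ho' y hy
      omega
    · have := ho' x hx
      have := ht' y hy
      have := twos_lt (ext b) hyx (by rw [hE, hy])
      have := hb x x.2.le
      omega
    · have := ones_lt (ext b) hyx (by rw [hE, hy])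
      have := ho' x hx
      omega
  have hinj : Function.Injective f := by
    intro x y hxy
    by_contra hne
    have h1 := key x y hne (by rw [hxy]) (by rw [hxy])
    have h2 := key y x (Ne.symm hne) (by rw [hxy]) (by rw [hxy])
    exact absurd h1 (not_lt.2 h2.le)
  refine ⟨Equiv.ofBijective f (Finite.injective_iff_bijective.1 hinj), ?_, ?_⟩
  · rw [linExt_iff]; exact key
  · funext p
    simp only [par, Equiv.ofBijective_apply, f]
    cases hp : b p
    · have := ht' p hp
      simp only [Bool.false_eq_true, if_false, decide_eq_false_iff_not]; omega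
    · have := ho' p hp
      simp only [if_true, decide_eq_true_eq]; omega

open Classical in
lemma perm_sum (q : ℝ) (hq : q ≠ 0) (s : ℕ) :
    ∑ π : Equiv.Perm (Fin (2 * s)) with IsLinExt 2 (oneLine π) ∧ Avoids123 (oneLine π),
      q ^ maj (oneLine π) = q ^ (∑ i ∈ range (2 * s - 1), (i + 1)) * gf q⁻¹ hp (2 * s) s := by
  unfold gf sumF
  rw [← sum_filter, mul_sum]
  refine sum_bij (fun π _ => par π) ?_ ?_ ?_ ?_
  · intro π hπ
    simp only [mem_filter, mem_univ, true_and] at hπ ⊢
    exact ⟨ballot_par π hπ.1, ones_par π⟩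
  · intro π hπ π' hπ' h
    simp only [mem_filter, mem_univ, true_and] at hπ hπ'
    ext p
    have e : ((π p : ℕ) % 2 = 1) ↔ ((π' p : ℕ) % 2 = 1) := by
      have := congrFun h p
      simpa [par] using this
    rcases Nat.mod_two_eq_zero_or_one (π p : ℕ) with h0 | h0
    · have v0 := val_of_false π hπ.1 p h0
      have v1 := val_of_false π' hπ'.1 p (by omega)
      rw [h] at v0; omega
    · have v0 := val_of_true π hπ.1 p h0
      have v1 := val_of_true π' hπ'.1 p (by omega)
      rw [h] at v0; omega
  · intro b hb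
    simp only [mem_filter, mem_univ, true_and] at hb
    obtain ⟨π, h1, h2⟩ := exists_perm b hb.1 hb.2
    exact ⟨π, by simp only [mem_filter, mem_univ, true_and]; exact ⟨h1, avoids_of_linExt π h1⟩, h2⟩
  · intro π hπ
    simp only [mem_filter, mem_univ, true_and] at hπ
    rw [← maj_add_hp π hπ.1, pow_add, inv_pow]
    field_simp

open Classical in
lemma real_identity (q : ℝ) (hq1 : 1 < q) (s : ℕ) (hs : 1 ≤ s) :
    ∑ π : Equiv.Perm (Fin (2 * s)) with IsLinExt 2 (oneLine π) ∧ Avoids123 (oneLine π),
      q ^ maj (oneLine π) = q ^ (s ^ 2) *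
    ∑ w ∈ (Fintype.piFinset fun _ : Fin (2 * s) => ({1, 2} : Finset ℕ)) with IsCatalanWord s w,
      q ^ maj w := by
  have hq0 : q ≠ 0 := by linarith
  have hq : ∀ k, 1 - q ^ (k + 1) ≠ 0 := fun k => by
    have := one_lt_pow₀ hq1 (Nat.add_one_ne_zero k); linarith
  have hq' : ∀ k, 1 - q⁻¹ ^ (k + 1) ≠ 0 := fun k => by
    have := pow_lt_one₀ (by positivity : (0 : ℝ) ≤ q⁻¹) (inv_lt_one_of_one_lt₀ hq1)
      (Nat.add_one_ne_zero k)
    linarith
  rw [perm_sum q hq0, catalan_sum,
    gf_closed q hq val (fun _ => rfl) (fun _ => rfl) (gf_rec_val q) _ s s (by ring) le_rfl,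
    gf_closed q⁻¹ hq' hp (fun _ => rfl) (fun _ => rfl) (gf_rec_hp q⁻¹) _ s s (by ring) le_rfl]
  have h1 := Phi_palin q hq1 s
  have h2 := tri_sum (2 * s - 1)
  have h3 : ∑ i ∈ range (2 * s - 1), (i + 1) + s = s ^ 2 + s * s := by
    obtain ⟨t, rfl⟩ : ∃ t, s = t + 1 := ⟨s - 1, by omega⟩
    have : 2 * (t + 1) - 1 = 2 * t + 1 := by omega
    rw [this] at h2 ⊢
    nlinarith
  have h4 : q ^ s ≠ 0 := by positivity
  apply mul_left_cancel₀ h4
  rw [← mul_assoc, ← pow_add, add_comm s, h3, pow_add, mul_assoc, h1]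
  ring

open Classical Polynomial in
theorem poly_identity (s : ℕ) (hs : 1 ≤ s) :
    ∑ π : Equiv.Perm (Fin (2 * s)) with IsLinExt 2 (oneLine π) ∧ Avoids123 (oneLine π),
      (X : ℤ[X]) ^ maj (oneLine π) = X ^ (s ^ 2) *
    ∑ w ∈ (Fintype.piFinset fun _ : Fin (2 * s) => ({1, 2} : Finset ℕ)) with IsCatalanWord s w,
      X ^ maj w := by
  apply Polynomial.map_injective (Int.castRingHom ℝ) Int.cast_injective
  apply Polynomial.eq_of_infinite_eval_eq
  refine Set.Infinite.mono (fun q hq => ?_) (Set.Ioi_infinite (1 : ℝ))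
  simp only [Set.mem_ofPred_eq, Polynomial.map_sum, Polynomial.map_mul, Polynomial.map_pow, map_X,
    eval_finsetSum, eval_mul, eval_pow, eval_X]
  exact real_identity q hq s hs

end Pool.Agent.MP_1fed52_co
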